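import Pool.Agent.Helper41.DZ.Assembly

/-!
For every prime `p ≡ 2 (mod 3)` with `p ≥ 5` the alternating group `A_{p+2}` is a composition
factor of a finite group of deficiency zero.

With `k = p - 1` and `r` a primitive root modulo `p` such that `gcd (r - 1, p - 4) = 1`, the group is
`⟨g, u | g⁻³ u g³ = uʳ, (gᵏ u⁻¹ gᵏ u)² = uᵖ⟩`.
-/

namespace Pool.Agent.Results.MP_b3ce06_al.AlternatingPrimePlusTwo

open Pool.Agent.Helper41.DZ

theorem result : ∀ p : ℕ, p.Prime → p % 3 = 2 → 5 ≤ p →
    ∃ (G : Type) (_ : Group G), Finite G ∧ DeficiencyZero G ∧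
      IsCompositionFactor (alternatingGroup (Fin (p + 2))) G :=
  fun p hp h3 h5 => main p hp h3 h5

end Pool.Agent.Results.MP_b3ce06_al.AlternatingPrimePlusTwo
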