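import Pool.Agent.Helper43.RK.Fin

/-!
For every odd `n` the group `PSL(3, 2^n)` is a composition factor of a finite group of deficiency zero.

The group is `⟨g, a, t | a⁻¹ g a = g^k, g⁻⁴ t g⁴ = t², g^(-β) t g^β = t^(-l) a t^l t⁻¹⟩`, `l = 1 - 2^n`,
`k = 2^e - 1`, `n ∣ k - 1`, `β ≡ 1 mod 8` a multiple of `(k - 1) / 2`.  It maps onto a group of automorphisms of
`SL(3, 2^n)` containing the inner ones (`g⁴` is a field automorphism, `g^β a` an inverse transpose, `t`
a torus element, `a` a transvection).  The main part of the proof is the finiteness.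
-/

namespace Pool.Agent.Results.MP_b3ce06_al.PSLThreePowersOfTwo

open Pool.Agent.Helper41.DZ

theorem result : ∀ n : ℕ, Odd n →
    ∃ (G : Type) (_ : Group G), Finite G ∧ DeficiencyZero G ∧
      IsCompositionFactor (Matrix.ProjectiveSpecialLinearGroup (Fin 3) (GaloisField 2 n)) G :=
  fun n hn => Pool.Agent.Helper43.RK.fin n (Nat.odd_iff.1 hn)

end Pool.Agent.Results.MP_b3ce06_al.PSLThreePowersOfTwo
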