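import Pool.Agent.Helper50.BP.Fin

/-!
For every prime power `q = p^n ≥ 4` the group `PSL(2, q)` is a composition factor of a finite group of
deficiency zero.

For odd `q` the group is
`G_(l,k,h) = ⟨a, w, t | a w a = w a w⁻¹, w⁻¹ t w = t⁻¹, a_l = a_0 a_k t^h⟩`, `a_i = t⁻ⁱ a tⁱ`,
for suitable `l, k, h` such that the field with `q` elements is generated by a unit `x` with
`x^h = -1`, `x^l + x^k = 1`: the maps `a : z ↦ 1 - z`, `w : z ↦ 1/z`, `t : z ↦ x⁻¹ z` of `PGL(2, q)` satisfy
these relations and generate a group that contains `PSL(2, q)`.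
For even `q` the group is
`⟨a, w, t | a w a = w a w⁻¹, w⁻¹ t w = t⁻¹, t⁻¹ a t = a (t^{-k} a t^k)⟩`, `x + x^k = 1`.
The main part of the proof is the finiteness of these groups.
-/

namespace Pool.Agent.Results.MP_b3ce06_al.PSLTwoAllPrimePowers

open Pool.Agent.Helper41.DZ

theorem result : ∀ (p : ℕ) [Fact p.Prime] (n : ℕ), 4 ≤ p ^ n →
    ∃ (G : Type) (_ : Group G), Finite G ∧ DeficiencyZero G ∧
      IsCompositionFactor (Matrix.ProjectiveSpecialLinearGroup (Fin 2) (GaloisField p n)) G :=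
  fun p _ n h4 => Pool.Agent.Helper50.BP.final p n h4

end Pool.Agent.Results.MP_b3ce06_al.PSLTwoAllPrimePowers
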