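import Pool.Agent.Helper50.GP.All

/-!
Every finite family of finite non-abelian simple groups consists of composition factors of ONE finite group
with 2 generators and (at most) 3 relators: one relator more than deficiency zero.

The group is `⟨w, c | c^s = c^g, [x, x^c] = 1, c^(p^2) = W⟩` with `x = w^(p(p-1))`, `s = w^(mq)`, where `p` is a large
prime, `g` a primitive root modulo `p^2`, and `W` is a product of words in the letters `x_j = c^(-j) x c^j`.
The proof does not use the classification.
-/

namespace Pool.Agent.Results.MP_b3ce06_al.TwoGeneratorsThreeRelators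

open Pool.Agent.Helper41.DZ

theorem result : ∀ (n : ℕ) (S : Fin n → Type) [∀ i, Group (S i)] [∀ i, Finite (S i)]
    [∀ i, IsSimpleGroup (S i)], (∀ i, ∃ a b : S i, a * b ≠ b * a) →
    ∃ (G : Type) (_ : Group G), Finite G ∧
      (∃ R : Finset (FreeGroup (Fin 2)), R.card ≤ 3 ∧
        Nonempty (G ≃* PresentedGroup (R : Set (FreeGroup (Fin 2))))) ∧
      ∀ i, IsCompositionFactor (S i) G :=
  fun n S _ _ _ hab => Pool.Agent.Helper50.GP.pFAM n S hab

end Pool.Agent.Results.MP_b3ce06_al.TwoGeneratorsThreeRelators
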